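import Pool.Agent.Helper133.Brouwer

/-!
# The square wrapped around the boundary of the cube is essential

`wrap : [0,1]² → ∂[-1,1]³` is a surjection that is injective on the interior and sends the
boundary to `(0, 0, 1)`.  By the no-retraction theorem it is not homotopic to a constant, relative
to the boundary of the square, in `ℝ³ ∖ {0}`.
-/

set_option autoImplicit false

namespace Pool.Agent.Q171.GS

open Topology

/-- the square `[0,1]²` -/
abbrev Sq : Type := Fin 2 → unitInterval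

/-- `ℝ³` with the maximum norm -/
abbrev V3 : Type := Fin 3 → ℝ

/-- the centred coordinates -/
def ctr (y : Sq) (i : Fin 2) : ℝ := 2 * (y i : ℝ) - 1

/-- the maximum norm of the centred point -/
noncomputable def mm (y : Sq) : ℝ := max |ctr y 0| |ctr y 1|

/-- the vector that is normalized -/
noncomputable def vv (y : Sq) : V3 :=
  ![2 * √(1 - mm y ^ 2) * ctr y 0, 2 * √(1 - mm y ^ 2) * ctr y 1, 2 * mm y ^ 2 - 1]

/-- a quadratic function whose unit level contains `vv` -/
noncomputable def N2 (x : V3) : ℝ := (max |x 0| |x 1|) ^ 2 + x 2 ^ 2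

theorem abs_ctr_le (y : Sq) (i : Fin 2) : |ctr y i| ≤ 1 := by
  have h0 := (y i).2.1
  have h1 := (y i).2.2
  unfold ctr
  rw [abs_le]
  constructor <;> linarith

theorem mm_le (y : Sq) : mm y ≤ 1 := max_le (abs_ctr_le y 0) (abs_ctr_le y 1)

theorem mm_nonneg (y : Sq) : 0 ≤ mm y := (abs_nonneg _).trans (le_max_left _ _)

theorem abs_ctr_eq_iff (y : Sq) (i : Fin 2) : |ctr y i| = 1 ↔ (y i = 0 ∨ y i = 1) := by
  unfold ctr
  rw [abs_eq zero_le_one]
  constructor
  · rintro (h | h)
    · right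
      apply Subtype.ext
      change (y i : ℝ) = 1
      linarith
    · left
      apply Subtype.ext
      change (y i : ℝ) = 0
      linarith
  · rintro (h | h)
    · right
      rw [h]
      norm_num
    · left
      rw [h]
      norm_num

theorem mem_boundary_iff (y : Sq) : y ∈ Cube.boundary (Fin 2) ↔ mm y = 1 := by
  constructor
  · rintro ⟨i, hi⟩
    have h := (abs_ctr_eq_iff y i).mpr hi
    refine le_antisymm (mm_le y) ?_
    rw [← h]
    fin_cases i
    · exact le_max_left _ _
    · exact le_max_right _ _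
  · intro h
    rcases max_choice |ctr y 0| |ctr y 1| with h' | h'
    · exact ⟨0, (abs_ctr_eq_iff y 0).mp (h'.symm.trans h)⟩
    · exact ⟨1, (abs_ctr_eq_iff y 1).mp (h'.symm.trans h)⟩

theorem one_sub_nonneg (y : Sq) : 0 ≤ 1 - mm y ^ 2 := by
  nlinarith [mm_le y, mm_nonneg y]

theorem N2_vv (y : Sq) : N2 (vv y) = 1 := by
  have h0 : max |2 * √(1 - mm y ^ 2) * ctr y 0| |2 * √(1 - mm y ^ 2) * ctr y 1| =
      2 * √(1 - mm y ^ 2) * mm y := by
    have hp : 0 ≤ 2 * √(1 - mm y ^ 2) := by positivity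
    rw [abs_mul (2 * √(1 - mm y ^ 2)), abs_mul (2 * √(1 - mm y ^ 2)), abs_of_nonneg hp]
    exact (mul_max_of_nonneg _ _ hp).symm
  change (max |2 * √(1 - mm y ^ 2) * ctr y 0| |2 * √(1 - mm y ^ 2) * ctr y 1|) ^ 2 +
    (2 * mm y ^ 2 - 1) ^ 2 = 1
  rw [h0, mul_pow, mul_pow, Real.sq_sqrt (one_sub_nonneg y)]
  ring

theorem N2_smul (c : ℝ) (x : V3) : N2 (c • x) = c ^ 2 * N2 x := by
  unfold N2
  simp only [Pi.smul_apply, smul_eq_mul, abs_mul]
  rw [← mul_max_of_nonneg _ _ (abs_nonneg c), mul_pow, sq_abs]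
  ring

theorem vv_ne (y : Sq) : vv y ≠ 0 := by
  intro h
  have := N2_vv y
  rw [h] at this
  simp [N2] at this

theorem norm_vv_pos (y : Sq) : 0 < ‖vv y‖ := norm_pos_iff.mpr (vv_ne y)

/-- the square wrapped around the cube -/
noncomputable def wrap (y : Sq) : V3 := ‖vv y‖⁻¹ • vv y

theorem norm_wrap (y : Sq) : ‖wrap y‖ = 1 := by
  unfold wrap
  rw [norm_smul, norm_inv, norm_norm]
  exact inv_mul_cancel₀ (norm_vv_pos y).ne'

theorem continuous_mm : Continuous mm := by
  unfold mm ctr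
  fun_prop

theorem continuous_vv : Continuous vv := by
  have h := continuous_mm
  refine continuous_pi fun i => ?_
  fin_cases i
  · change Continuous fun y => 2 * √(1 - mm y ^ 2) * ctr y 0
    unfold ctr
    fun_prop
  · change Continuous fun y => 2 * √(1 - mm y ^ 2) * ctr y 1
    unfold ctr
    fun_prop
  · change Continuous fun y => 2 * mm y ^ 2 - 1
    fun_prop

theorem continuous_wrap : Continuous wrap :=
  (continuous_vv.norm.inv₀ fun y => (norm_vv_pos y).ne').smul continuous_vv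

/-- the base point -/
def bb : V3 := ![0, 0, 1]

theorem norm_bb : ‖bb‖ = 1 := by
  refine le_antisymm ((pi_norm_le_iff_of_nonneg zero_le_one).mpr fun i => ?_) ?_
  · fin_cases i <;> simp [bb]
  · have := norm_le_pi_norm bb 2
    simpa [bb] using this

theorem wrap_boundary {y : Sq} (h : y ∈ Cube.boundary (Fin 2)) : wrap y = bb := by
  rw [mem_boundary_iff] at h
  have hv : vv y = bb := by
    unfold vv bb
    rw [h]
    norm_num
  rw [wrap, hv, norm_bb, inv_one, one_smul]

theorem wrap_inj {y y' : Sq} (h : wrap y = wrap y') :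
    y = y' ∨ (y ∈ Cube.boundary (Fin 2) ∧ y' ∈ Cube.boundary (Fin 2)) := by
  have h1 : N2 (wrap y) = N2 (wrap y') := by rw [h]
  unfold wrap at h1
  rw [N2_smul, N2_smul, N2_vv, N2_vv, mul_one, mul_one] at h1
  have h2 : ‖vv y‖⁻¹ = ‖vv y'‖⁻¹ := by
    rcases sq_eq_sq_iff_eq_or_eq_neg.mp h1 with h2 | h2
    · exact h2
    · have a := inv_pos.mpr (norm_vv_pos y)
      have b := inv_pos.mpr (norm_vv_pos y')
      linarith
  have h3 : vv y = vv y' := by
    unfold wrap at h
    rw [h2] at h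
    exact smul_right_injective V3 (inv_pos.mpr (norm_vv_pos y')).ne' h
  have h4 : 2 * mm y ^ 2 - 1 = 2 * mm y' ^ 2 - 1 := congrFun h3 2
  have h5 : mm y = mm y' := by
    have : mm y ^ 2 = mm y' ^ 2 := by linarith
    exact (pow_left_inj₀ (mm_nonneg y) (mm_nonneg y') two_ne_zero).mp this
  by_cases h6 : mm y = 1
  · right
    rw [mem_boundary_iff, mem_boundary_iff]
    exact ⟨h6, h5 ▸ h6⟩
  · left
    have h7 : 0 < 1 - mm y ^ 2 := by
      have := lt_of_le_of_ne (mm_le y) h6
      nlinarith [mm_nonneg y]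
    have h8 : 0 < 2 * √(1 - mm y ^ 2) := by positivity
    have e0 : 2 * √(1 - mm y ^ 2) * ctr y 0 = 2 * √(1 - mm y' ^ 2) * ctr y' 0 := congrFun h3 0
    have e1 : 2 * √(1 - mm y ^ 2) * ctr y 1 = 2 * √(1 - mm y' ^ 2) * ctr y' 1 := congrFun h3 1
    rw [← h5] at e0 e1
    have c0 := mul_left_cancel₀ h8.ne' e0
    have c1 := mul_left_cancel₀ h8.ne' e1
    unfold ctr at c0 c1
    funext i
    apply Subtype.ext
    fin_cases i
    · change (y 0 : ℝ) = y' 0
      linarith
    · change (y 1 : ℝ) = y' 1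
      linarith

theorem exists_sq {c0 c1 : ℝ} (h0 : |c0| ≤ 1) (h1 : |c1| ≤ 1) :
    ∃ y : Sq, ctr y 0 = c0 ∧ ctr y 1 = c1 := by
  rw [abs_le] at h0 h1
  refine ⟨![⟨(1 + c0) / 2, by constructor <;> linarith⟩,
    ⟨(1 + c1) / 2, by constructor <;> linarith⟩], ?_, ?_⟩
  · change 2 * ((1 + c0) / 2) - 1 = c0
    ring
  · change 2 * ((1 + c1) / 2) - 1 = c1
    ring

theorem wrap_surj {w : V3} (hw : ‖w‖ = 1) : ∃ y, wrap y = w := by
  have hw0 : w ≠ 0 := by
    rintro rfl
    simp at hw
  have hN : 0 < N2 w := by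
    have h0 : 0 ≤ N2 w := by unfold N2; positivity
    refine lt_of_le_of_ne h0 fun h => hw0 ?_
    unfold N2 at h
    have a : (max |w 0| |w 1|) ^ 2 = 0 := by nlinarith [sq_nonneg (w 2), sq_nonneg (max |w 0| |w 1|)]
    have b : w 2 ^ 2 = 0 := by nlinarith [sq_nonneg (w 2), sq_nonneg (max |w 0| |w 1|)]
    have a' : max |w 0| |w 1| = 0 := pow_eq_zero_iff two_ne_zero |>.mp a
    have b' : w 2 = 0 := pow_eq_zero_iff two_ne_zero |>.mp b
    have a0 : |w 0| ≤ 0 := a' ▸ le_max_left _ _
    have a1 : |w 1| ≤ 0 := a' ▸ le_max_right _ _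
    funext i
    fin_cases i
    · exact abs_nonpos_iff.mp a0
    · exact abs_nonpos_iff.mp a1
    · exact b'
  obtain ⟨n, hn, hn2⟩ : ∃ n : ℝ, 0 < n ∧ n ^ 2 = N2 w :=
    ⟨√(N2 w), Real.sqrt_pos.mpr hN, Real.sq_sqrt hN.le⟩
  set u : V3 := n⁻¹ • w with hu
  have hNu : N2 u = 1 := by
    rw [hu, N2_smul, ← hn2, ← mul_pow, inv_mul_cancel₀ hn.ne', one_pow]
  have hwu : w = n • u := by rw [hu, smul_smul, mul_inv_cancel₀ hn.ne', one_smul]
  have hun : ‖u‖ = n⁻¹ := by rw [hu, norm_smul, hw, mul_one, Real.norm_of_nonneg (by positivity)]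
  have hfin : ∀ y, vv y = u → wrap y = w := by
    intro y hy
    rw [wrap, hy, hun, inv_inv, ← hwu]
  have hs : (max |u 0| |u 1|) ^ 2 + u 2 ^ 2 = 1 := hNu
  set s := max |u 0| |u 1| with hsdef
  have hs0 : 0 ≤ s := (abs_nonneg _).trans (le_max_left _ _)
  have hh : u 2 ≤ 1 := by nlinarith [sq_nonneg s]
  have hh' : -1 ≤ u 2 := by nlinarith [sq_nonneg s]
  rcases eq_or_lt_of_le hh with h1 | h1
  · -- the pole
    obtain ⟨y, hy0, hy1⟩ := exists_sq (c0 := 1) (c1 := 1) (by simp) (by simp)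
    refine ⟨y, hfin y ?_⟩
    have hm : mm y = 1 := by unfold mm; rw [hy0, hy1]; simp
    have hs' : s = 0 := by
      have : s ^ 2 = 0 := by rw [h1] at hs; linarith
      exact pow_eq_zero_iff two_ne_zero |>.mp this
    have a0 : |u 0| ≤ 0 := hs' ▸ le_max_left _ _
    have a1 : |u 1| ≤ 0 := hs' ▸ le_max_right _ _
    funext i
    fin_cases i
    · change 2 * √(1 - mm y ^ 2) * ctr y 0 = u 0
      rw [hm, abs_nonpos_iff.mp a0]
      norm_num
    · change 2 * √(1 - mm y ^ 2) * ctr y 1 = u 1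
      rw [hm, abs_nonpos_iff.mp a1]
      norm_num
    · change 2 * mm y ^ 2 - 1 = u 2
      rw [hm, h1]
      norm_num
  · -- the other points
    set m := √((1 + u 2) / 2) with hm
    have hm2 : m ^ 2 = (1 + u 2) / 2 := Real.sq_sqrt (by linarith)
    have hm0 : 0 ≤ m := Real.sqrt_nonneg _
    have hq : 0 < 1 - m ^ 2 := by rw [hm2]; linarith
    set f := 2 * √(1 - m ^ 2) with hf
    have hf0 : 0 < f := by positivity
    have hf2 : f ^ 2 = 4 * (1 - m ^ 2) := by
      rw [hf, mul_pow, Real.sq_sqrt hq.le]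
      norm_num
    have hsm : s = f * m := by
      have h2 : s ^ 2 = (f * m) ^ 2 := by
        rw [mul_pow, hf2]
        have : s ^ 2 = 1 - u 2 ^ 2 := by linarith
        rw [this, hm2]
        ring
      exact (pow_left_inj₀ hs0 (by positivity) two_ne_zero).mp h2
    have hm1 : m ≤ 1 := by nlinarith
    have b0 : |u 0 / f| ≤ m := by
      rw [abs_div, abs_of_pos hf0, div_le_iff₀ hf0, mul_comm, ← hsm]
      exact le_max_left _ _
    have b1 : |u 1 / f| ≤ m := by
      rw [abs_div, abs_of_pos hf0, div_le_iff₀ hf0, mul_comm, ← hsm]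
      exact le_max_right _ _
    obtain ⟨y, hy0, hy1⟩ := exists_sq (b0.trans hm1) (b1.trans hm1)
    refine ⟨y, hfin y ?_⟩
    have hmy : mm y = m := by
      unfold mm
      rw [hy0, hy1, abs_div, abs_div, abs_of_pos hf0, max_div_div_right hf0.le, ← hsdef, hsm]
      field_simp
    funext i
    fin_cases i
    · change 2 * √(1 - mm y ^ 2) * ctr y 0 = u 0
      rw [hmy, ← hf, hy0]
      field_simp
    · change 2 * √(1 - mm y ^ 2) * ctr y 1 = u 1
      rw [hmy, ← hf, hy1]
      field_simp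
    · change 2 * mm y ^ 2 - 1 = u 2
      rw [hmy, hm2]
      ring

/-- the cone on the wrapped square -/
noncomputable def QQ (p : unitInterval × Sq) : Metric.closedBall (0 : V3) 1 :=
  ⟨(1 - (p.1 : ℝ)) • wrap p.2, by
    have h0 := p.1.2.1
    have h1 := p.1.2.2
    rw [mem_closedBall_zero_iff, norm_smul, norm_wrap, mul_one,
      Real.norm_of_nonneg (by linarith)]
    linarith⟩

theorem norm_QQ (p : unitInterval × Sq) : ‖(QQ p : V3)‖ = 1 - (p.1 : ℝ) := by
  have h1 := p.1.2.2
  change ‖(1 - (p.1 : ℝ)) • wrap p.2‖ = _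
  rw [norm_smul, norm_wrap, mul_one, Real.norm_of_nonneg (by linarith)]

theorem continuous_QQ : Continuous QQ := by
  refine Continuous.subtype_mk ?_ _
  have h1 : Continuous fun p : unitInterval × Sq => (p.1 : ℝ) :=
    continuous_subtype_val.comp continuous_fst
  exact (continuous_const.sub h1).smul (continuous_wrap.comp continuous_snd)

theorem surjective_QQ : Function.Surjective QQ := by
  rintro ⟨x, hx⟩
  rw [mem_closedBall_zero_iff] at hx
  by_cases h : x = 0
  · refine ⟨(1, fun _ => 0), ?_⟩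
    apply Subtype.ext
    change (1 - (1 : ℝ)) • wrap _ = x
    rw [sub_self, zero_smul, h]
  · have hp : 0 < ‖x‖ := norm_pos_iff.mpr h
    obtain ⟨y, hy⟩ := wrap_surj (w := ‖x‖⁻¹ • x) (by
      rw [norm_smul, norm_inv, norm_norm]
      exact inv_mul_cancel₀ hp.ne')
    refine ⟨(⟨1 - ‖x‖, by constructor <;> linarith⟩, y), ?_⟩
    apply Subtype.ext
    change (1 - (1 - ‖x‖)) • wrap y = x
    rw [hy, sub_sub_cancel, smul_smul, mul_inv_cancel₀ hp.ne', one_smul]

/-- the cone as a continuous map -/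
noncomputable def QC : C(unitInterval × Sq, Metric.closedBall (0 : V3) 1) :=
  ⟨QQ, continuous_QQ⟩

theorem isQuotientMap_QC : IsQuotientMap QC :=
  IsClosedMap.isQuotientMap continuous_QQ.isClosedMap continuous_QQ surjective_QQ

/-- The wrapped square is essential in `ℝ³ ∖ {0}`. -/
theorem not_null (M : C(unitInterval × Sq, V3)) (hM : ∀ p, M p ≠ 0)
    (h0 : ∀ y, M (0, y) = wrap y) (h1 : ∀ y, M (1, y) = bb)
    (hb : ∀ (t : unitInterval) (y : Sq), y ∈ Cube.boundary (Fin 2) → M (t, y) = bb) : False := by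
  have hfac : Function.FactorsThrough M QC := by
    rintro ⟨t, y⟩ ⟨t', y'⟩ h
    change QQ (t, y) = QQ (t', y') at h
    have hn : (1 : ℝ) - t = 1 - t' := by
      rw [← norm_QQ (t, y), ← norm_QQ (t', y'), h]
    have ht : t = t' := Subtype.ext (by linarith)
    subst ht
    by_cases ht1 : t = 1
    · rw [ht1, h1, h1]
    · have ht2 : (1 : ℝ) - t ≠ 0 := fun hh => ht1 (Subtype.ext (by
        change (t : ℝ) = 1
        linarith))
      have hw : wrap y = wrap y' := by
        have := congrArg Subtype.val h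
        exact smul_right_injective V3 ht2 this
      rcases wrap_inj hw with rfl | ⟨hy, hy'⟩
      · rfl
      · rw [hb t y hy, hb t y' hy']
  let G := isQuotientMap_QC.lift M hfac
  have hG : ∀ p, G (QQ p) = M p := fun p => by
    have := isQuotientMap_QC.lift_comp M hfac
    exact DFunLike.congr_fun this p
  have hGne : ∀ x, G x ≠ 0 := by
    intro x
    obtain ⟨p, rfl⟩ := surjective_QQ x
    rw [hG]
    exact hM p
  have hGs : ∀ x : Metric.closedBall (0 : V3) 1, ‖(x : V3)‖ = 1 → G x = x := by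
    intro x hx
    obtain ⟨y, hy⟩ := wrap_surj hx
    have : x = QQ (0, y) := by
      apply Subtype.ext
      change (x : V3) = (1 - (0 : ℝ)) • wrap y
      rw [sub_zero, one_smul, hy]
    rw [this, hG, h0]
    change wrap y = (1 - (0 : ℝ)) • wrap y
    rw [sub_zero, one_smul]
  -- radial retraction to the ball
  have hmax : ∀ x : V3, 0 < max 1 ‖x‖ := fun x => lt_max_of_lt_left one_pos
  let r : V3 → Metric.closedBall (0 : V3) 1 := fun x => ⟨(max 1 ‖x‖)⁻¹ • x, by
    rw [mem_closedBall_zero_iff, norm_smul, norm_inv, Real.norm_of_nonneg (hmax x).le,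
      inv_mul_le_iff₀ (hmax x), mul_one]
    exact le_max_right _ _⟩
  have hr : Continuous r := by
    refine Continuous.subtype_mk ?_ _
    exact ((continuous_const.max continuous_norm).inv₀ fun x => (hmax x).ne').smul continuous_id
  have hr1 : ∀ x : V3, ‖x‖ ≤ 1 → (r x : V3) = x := by
    intro x hx
    change (max 1 ‖x‖)⁻¹ • x = x
    rw [max_eq_left hx, inv_one, one_smul]
  let F : V3 → V3 := fun x => if ‖x‖ ≤ 1 then G (r x) else x
  have hF : Continuous F := by
    refine Continuous.if_le (G.continuous.comp hr) continuous_id continuous_norm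
      continuous_const fun x hx => ?_
    have := hGs (r x) (by rw [hr1 x hx.le, hx])
    rw [hr1 x hx.le] at this
    exact this
  have hFne : ∀ x, F x ≠ 0 := by
    intro x
    change (if ‖x‖ ≤ 1 then G (r x) else x) ≠ 0
    split_ifs with h
    · exact hGne _
    · rintro rfl
      simp at h
  obtain ⟨x, hx⟩ := Helper133.Brouwer.exists_zero 3
    (fun x => WithLp.toLp 2 (F (WithLp.ofLp x)))
    ((PiLp.continuous_toLp 2 _).comp (hF.comp (PiLp.continuous_ofLp 2 _))) 2 two_pos (by
      intro x hx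
      have hlt : ¬ ‖WithLp.ofLp x‖ ≤ 1 := by
        intro hle
        have h3 : ∀ i, ‖x i‖ ≤ 1 := fun i => (norm_le_pi_norm (WithLp.ofLp x) i).trans hle
        have h4 : ‖x‖ ^ 2 ≤ 3 := by
          rw [EuclideanSpace.norm_sq_eq]
          calc ∑ i, ‖x i‖ ^ 2 ≤ ∑ _i : Fin 3, (1 : ℝ) :=
                Finset.sum_le_sum fun i _ => by
                  have := h3 i
                  have h5 := norm_nonneg (x i)
                  nlinarith
            _ = 3 := by simp
        nlinarith
      change WithLp.toLp 2 (if ‖WithLp.ofLp x‖ ≤ 1 then (G (r (WithLp.ofLp x)) : V3)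
        else WithLp.ofLp x) = x
      rw [if_neg hlt])
  have hz : F (WithLp.ofLp x) = 0 := by
    have := congrArg WithLp.ofLp hx
    exact this
  exact hFne _ hz

end Pool.Agent.Q171.GS
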