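import Mathlib

/-!
# Configuration spaces of graphs with sinks

A graph is given by finite types of vertices and edges and the two end points of every edge; its
topological realization is the corresponding finite CW complex of dimension at most one.
-/

set_option autoImplicit false

namespace Pool.Agent.Q171.GS

open Topology

/-- a finite graph; multiple edges and loops are allowed -/
structure Graph where
  V : Type
  E : Type
  finV : Finite V
  finE : Finite E
  src : E → V
  tgt : E → V

namespace Graph

/-- the disjoint union of the vertices and of one unit interval for every edge -/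
abbrev Pre (Γ : Graph) : Type := (Σ _ : Γ.V, Unit) ⊕ (Σ _ : Γ.E, unitInterval)

/-- the ends of every interval are glued to the end points of the edge -/
inductive Glue (Γ : Graph) : Γ.Pre → Γ.Pre → Prop
  | src (e : Γ.E) : Glue Γ (Sum.inr ⟨e, 0⟩) (Sum.inl ⟨Γ.src e, ()⟩)
  | tgt (e : Γ.E) : Glue Γ (Sum.inr ⟨e, 1⟩) (Sum.inl ⟨Γ.tgt e, ()⟩)

/-- the topological realization of a graph -/
def Space (Γ : Graph) : Type := Quot Γ.Glue

instance topSpace (Γ : Graph) : TopologicalSpace Γ.Space := instTopologicalSpaceQuot

/-- the point of the vertex `v` -/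
def vert (Γ : Graph) (v : Γ.V) : Γ.Space := Quot.mk _ (Sum.inl ⟨v, ()⟩)

/-- the point at position `t` of the edge `e` -/
def pt (Γ : Graph) (e : Γ.E) (t : unitInterval) : Γ.Space := Quot.mk _ (Sum.inr ⟨e, t⟩)

/-- the ordered configuration space `F_k(Γ, S)`: points may collide only at the sinks -/
def F (Γ : Graph) (S : Set Γ.V) (k : ℕ) : Type :=
  {x : Fin k → Γ.Space // ∀ i j, i ≠ j → x i = x j → ∃ s ∈ S, x i = Γ.vert s}

instance topF (Γ : Graph) (S : Set Γ.V) (k : ℕ) : TopologicalSpace (Γ.F S k) :=
  instTopologicalSpaceSubtype

/-- `y` is obtained from `x` by a permutation of the coordinates -/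
def Perm (Γ : Graph) (S : Set Γ.V) (k : ℕ) (x y : Γ.F S k) : Prop :=
  ∃ σ : Equiv.Perm (Fin k), ∀ i, y.1 i = x.1 (σ i)

/-- the unordered configuration space `B_k(Γ, S)` -/
def B (Γ : Graph) (S : Set Γ.V) (k : ℕ) : Type := Quot (Γ.Perm S k)

instance topB (Γ : Graph) (S : Set Γ.V) (k : ℕ) : TopologicalSpace (Γ.B S k) :=
  instTopologicalSpaceQuot

end Graph

/-- the path component of `x` -/
abbrev Component (X : Type) [TopologicalSpace X] (x : X) : Type := {y : X // Joined x y}

/-- A space is aspherical if all homotopy groups `π_n`, `n ≥ 2`, of all its path components are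
trivial. -/
def Aspherical (X : Type) [TopologicalSpace X] : Prop :=
  ∀ (x : X) (n : ℕ), 2 ≤ n → Subsingleton (π_ n (Component X x) ⟨x, Joined.refl x⟩)

/-- the rose with three petals: one vertex and three loops -/
def rose : Graph where
  V := Unit
  E := Fin 3
  finV := inferInstance
  finE := inferInstance
  src := fun _ => ()
  tgt := fun _ => ()

end Pool.Agent.Q171.GS
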