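import Pool.Agent.Q171.GS.Rose

/-!
# The second homotopy group of `B_2` of the rose with three petals is not trivial
-/

set_option autoImplicit false

namespace Pool.Agent.Q171.GS

open Topology

/-- a number in `[-1, 1]` as a point of `[0,1]` -/
theorem half_mem {r : ℝ} (h : |r| ≤ 1) : (1 + r) / 2 ∈ unitInterval := by
  rw [abs_le] at h
  constructor <;> linarith

theorem abs_wrap_le (y : Sq) (i : Fin 3) : |wrap y i| ≤ 1 := by
  rw [← norm_wrap y]
  exact norm_le_pi_norm (wrap y) i

/-- the wrapped square in `∂[0,1]³` -/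
noncomputable def wrapI (y : Sq) : Cube3 := fun i => ⟨(1 + wrap y i) / 2, half_mem (abs_wrap_le y i)⟩

theorem wrapI_mem (y : Sq) : ∃ i, wrapI y i = 0 ∨ wrapI y i = 1 := by
  obtain ⟨i, hi⟩ : ∃ i, |wrap y i| = 1 := by
    by_contra h
    push Not at h
    have : ‖wrap y‖ < 1 := (pi_norm_lt_iff zero_lt_one).mpr fun i =>
      lt_of_le_of_ne (abs_wrap_le y i) (h i)
    rw [norm_wrap] at this
    exact lt_irrefl _ this
  refine ⟨i, ?_⟩
  rcases (abs_eq zero_le_one).mp hi with h | h
  · right
    apply Subtype.ext
    change (1 + wrap y i) / 2 = 1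
    rw [h]
    norm_num
  · left
    apply Subtype.ext
    change (1 + wrap y i) / 2 = 0
    rw [h]
    norm_num

/-- the wrapped square as a map to the boundary of `[0,1]³` -/
noncomputable def wrapB (y : Sq) : BdCube := ⟨wrapI y, wrapI_mem y⟩

theorem continuous_wrapB : Continuous wrapB := by
  refine Continuous.subtype_mk (continuous_pi fun i => Continuous.subtype_mk ?_ _) _
  exact (continuous_const.add ((continuous_apply i).comp continuous_wrap)).div_const 2

/-- the essential map of the square to the configuration space -/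
noncomputable def sq : C(Sq, B2) := ⟨fun y => bd (wrapB y), continuous_bd.comp continuous_wrapB⟩

theorem phi_sq (y : Sq) : phi (sq y) = fun i => (((1 + wrap y i) / 2 : ℝ) : Crc) :=
  phi_bd (wrapB y)

/-- a corner of the square -/
def corner : Sq := fun _ => 0

theorem corner_mem : corner ∈ Cube.boundary (Fin 2) := ⟨0, Or.inl rfl⟩

/-- the base point -/
noncomputable def base : B2 := sq corner

theorem sq_boundary {y : Sq} (hy : y ∈ Cube.boundary (Fin 2)) : sq y = base := by
  have h : wrapB y = wrapB corner := by
    apply Subtype.ext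
    funext i
    apply Subtype.ext
    change (1 + wrap y i) / 2 = (1 + wrap corner i) / 2
    rw [wrap_boundary hy, wrap_boundary corner_mem]
  exact congrArg bd h

/-- No homotopy of `sq` to a constant, relative to the boundary. -/
theorem no_homotopy (H : C(unitInterval × Sq, B2)) (h0 : ∀ y, H (0, y) = sq y)
    (h1 : ∀ y, H (1, y) = base)
    (hb : ∀ (t : unitInterval) (y : Sq), y ∈ Cube.boundary (Fin 2) → H (t, y) = base) :
    False := by
  have cov : IsCoveringMap ((↑) : ℝ → Crc) := AddCircle.isCoveringMap_coe 1
  let P : Fin 3 → C(unitInterval × Sq, Crc) := fun i =>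
    ⟨fun p => phi (H p) i, (continuous_apply i).comp (continuous_phi.comp H.continuous)⟩
  let f : Fin 3 → C(Sq, ℝ) := fun i =>
    ⟨fun y => (1 + wrap y i) / 2,
      (continuous_const.add ((continuous_apply i).comp continuous_wrap)).div_const 2⟩
  have hf : ∀ i (y : Sq), P i (0, y) = ((f i y : ℝ) : Crc) := by
    intro i y
    change phi (H (0, y)) i = _
    rw [h0, phi_sq]
    rfl
  let L : Fin 3 → C(unitInterval × Sq, ℝ) := fun i => cov.liftHomotopy (P i) (f i) (hf i)
  have hL : ∀ i p, ((L i p : ℝ) : Crc) = phi (H p) i := fun i p =>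
    congrFun (cov.liftHomotopy_lifts (P i) (f i) (hf i)) p
  have hL0 : ∀ i y, L i (0, y) = (1 + wrap y i) / 2 := fun i y =>
    cov.liftHomotopy_zero (P i) (f i) (hf i) y
  have hbase : ∀ i, phi base i = (((1 + bb i) / 2 : ℝ) : Crc) := by
    intro i
    rw [base, phi_sq, wrap_boundary corner_mem]
  -- on the sides
  have hside : ∀ i (t : unitInterval) (y : Sq), y ∈ Cube.boundary (Fin 2) →
      L i (t, y) = (1 + bb i) / 2 := by
    intro i t y hy
    have := cov.eq_of_comp_eq (g₁ := fun t : unitInterval => L i (t, y))
      (g₂ := fun _ => (1 + bb i) / 2) ((L i).continuous.comp (by fun_prop)) continuous_const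
      (by
        funext t
        change ((L i (t, y) : ℝ) : Crc) = (((1 + bb i) / 2 : ℝ) : Crc)
        rw [hL, hb t y hy, hbase]) 0 (by
        rw [hL0, wrap_boundary hy])
    exact congrFun this t
  -- at the end
  have hend : ∀ i (y : Sq), L i (1, y) = (1 + bb i) / 2 := by
    intro i y
    have := cov.eq_of_comp_eq (g₁ := fun y : Sq => L i (1, y))
      (g₂ := fun _ => (1 + bb i) / 2) ((L i).continuous.comp (by fun_prop)) continuous_const
      (by
        funext y
        change ((L i (1, y) : ℝ) : Crc) = (((1 + bb i) / 2 : ℝ) : Crc)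
        rw [hL, h1, hbase]) corner (hside i 1 corner corner_mem)
    exact congrFun this y
  -- the centred lift
  let M : C(unitInterval × Sq, V3) :=
    ⟨fun p i => 2 * L i p - 1, continuous_pi fun i => by fun_prop⟩
  refine not_null M (fun p hp => ?_) (fun y => ?_) (fun y => ?_) (fun t y hy => ?_)
  · obtain ⟨i, hi⟩ := phi_skeleton (H p)
    rw [← hL, AddCircle.coe_eq_zero_iff] at hi
    obtain ⟨n, hn⟩ := hi
    rw [zsmul_eq_mul, mul_one] at hn
    have h2 : 2 * L i p - 1 = 0 := congrFun hp i
    rw [← hn] at h2
    have h3 : 2 * n - 1 = 0 := by exact_mod_cast h2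
    omega
  · funext i
    change 2 * L i (0, y) - 1 = wrap y i
    rw [hL0]
    ring
  · funext i
    change 2 * L i (1, y) - 1 = bb i
    rw [hend]
    ring
  · funext i
    change 2 * L i (t, y) - 1 = bb i
    rw [hside i t y hy]
    ring

theorem joined_sq (y : Sq) : Joined base (sq y) := by
  have h : Joined corner y :=
    ⟨{ toFun := fun s i => s * y i
       continuous_toFun := continuous_pi fun i => continuous_id.mul continuous_const
       source' := funext fun i => zero_mul (y i)
       target' := funext fun i => one_mul (y i) }⟩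
  exact h.map sq.continuous

/-- the essential map into the path component -/
noncomputable def sqC : C(Sq, Component B2 base) :=
  ⟨fun y => ⟨sq y, joined_sq y⟩, sq.continuous.subtype_mk _⟩

/-- the corresponding element of the loop space -/
noncomputable def loop : GenLoop (Fin 2) (Component B2 base) ⟨base, Joined.refl base⟩ :=
  ⟨sqC, fun _ hy => Subtype.ext (sq_boundary hy)⟩

theorem nontrivial_pi2 :
    Nontrivial (π_ 2 (Component B2 base) ⟨base, Joined.refl base⟩) := by
  refine ⟨⟦loop⟧, ⟦GenLoop.const⟧, fun h => ?_⟩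
  have h' : GenLoop.Homotopic loop GenLoop.const := Quotient.exact h
  obtain ⟨K⟩ := h'
  refine no_homotopy ⟨fun p => (K p).1, continuous_subtype_val.comp K.continuous⟩
    (fun y => ?_) (fun y => ?_) (fun t y hy => ?_)
  · change (K (0, y)).1 = _
    rw [K.apply_zero]
    rfl
  · change (K (1, y)).1 = _
    rw [K.apply_one]
    rfl
  · change (K (t, y)).1 = _
    rw [K.eq_fst t hy]
    exact sq_boundary hy

end Pool.Agent.Q171.GS
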