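import Pool.Agent.Q171.GS.Defs
import Pool.Agent.Q171.GS.Box

/-!
# Two points on the rose with three petals
-/

set_option autoImplicit false

namespace Pool.Agent.Q171.GS

open Topology

/-- the point at position `t` of the petal `e` -/
def pr (e : Fin 3) (t : unitInterval) : rose.Space := Graph.pt rose e t

/-- the circle `ℝ / ℤ` -/
abbrev Crc : Type := AddCircle (1 : ℝ)

/-- the map of the rose to the three-dimensional torus, on the disjoint union -/
noncomputable def rhoPre : rose.Pre → (Fin 3 → Crc) :=
  Sum.elim (fun _ => 0) (fun p => Pi.single (M := fun _ : Fin 3 => Crc) p.1 ((p.2 : ℝ) : Crc))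

theorem single_zero (e : Fin 3) :
    Pi.single (M := fun _ : Fin 3 => Crc) e (((0 : unitInterval) : ℝ) : Crc) = 0 := by
  simp

theorem single_one (e : Fin 3) :
    Pi.single (M := fun _ : Fin 3 => Crc) e (((1 : unitInterval) : ℝ) : Crc) = 0 := by
  have : (((1 : unitInterval) : ℝ) : Crc) = 0 := AddCircle.coe_period 1
  rw [this]
  simp

theorem rhoPre_glue (a b : rose.Pre) (h : rose.Glue a b) : rhoPre a = rhoPre b := by
  rcases h with e | e
  · exact single_zero e
  · exact single_one e

/-- the map of the rose to the torus -/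
noncomputable def rho : rose.Space → (Fin 3 → Crc) := Quot.lift rhoPre rhoPre_glue

theorem rho_vert (v : Unit) : rho (rose.vert v) = 0 := rfl

theorem rho_pt (e : Fin 3) (t : unitInterval) :
    rho (pr e t) = Pi.single (M := fun _ : Fin 3 => Crc) e ((t : ℝ) : Crc) := rfl

theorem continuous_rho : Continuous rho := by
  refine continuous_quot_lift rhoPre_glue ?_
  refine continuous_sum_dom.mpr ⟨continuous_const, ?_⟩
  refine continuous_sigma fun e => ?_
  change Continuous fun t : unitInterval =>
    Pi.single (M := fun _ : Fin 3 => Crc) e ((t : ℝ) : Crc)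
  refine continuous_pi fun i => ?_
  by_cases h : i = e
  · subst h
    simp only [Pi.single_eq_same]
    exact (AddCircle.continuous_mk' 1).comp continuous_subtype_val
  · simp only [Pi.single_eq_of_ne h]
    exact continuous_const

/-- every point of the rose lies on a petal -/
theorem exists_petal (p : rose.Space) : ∃ e : Fin 3, ∀ i, i ≠ e → rho p i = 0 := by
  obtain ⟨q, rfl⟩ := Quot.exists_rep p
  rcases q with q | q
  · exact ⟨0, fun i _ => rfl⟩
  · refine ⟨q.1, fun i hi => ?_⟩
    change Pi.single (M := fun _ : Fin 3 => Crc) q.1 ((q.2 : ℝ) : Crc) i = 0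
    exact Pi.single_eq_of_ne hi _

theorem pt_zero (e : Fin 3) : pr e 0 = rose.vert () :=
  Quot.sound (Graph.Glue.src (Γ := rose) e)

theorem pt_one (e : Fin 3) : pr e 1 = rose.vert () :=
  Quot.sound (Graph.Glue.tgt (Γ := rose) e)

theorem coe_eq_zero {t : unitInterval} (h : ((t : ℝ) : Crc) = 0) : t = 0 ∨ t = 1 := by
  rw [AddCircle.coe_eq_zero_iff] at h
  obtain ⟨n, hn⟩ := h
  have h0 := t.2.1
  have h1 := t.2.2
  rw [zsmul_eq_mul, mul_one] at hn
  have hn0 : 0 ≤ n := by exact_mod_cast hn ▸ h0
  have hn1 : n ≤ 1 := by exact_mod_cast hn ▸ h1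
  have : n = 0 ∨ n = 1 := by omega
  rcases this with rfl | rfl
  · left
    apply Subtype.ext
    change (t : ℝ) = 0
    rw [← hn]
    simp
  · right
    apply Subtype.ext
    change (t : ℝ) = 1
    rw [← hn]
    simp

theorem pt_eq_vert {e : Fin 3} {t : unitInterval} (h : t = 0 ∨ t = 1) :
    pr e t = rose.vert () := by
  rcases h with rfl | rfl
  · exact pt_zero e
  · exact pt_one e

theorem pt_eq {e e' : Fin 3} (he : e ≠ e') {s t : unitInterval}
    (h : pr e s = pr e' t) : pr e s = rose.vert () := by
  have h1 := congrFun (congrArg rho h) e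
  rw [rho_pt, rho_pt, Pi.single_eq_same, Pi.single_eq_of_ne he] at h1
  exact pt_eq_vert (coe_eq_zero h1)

/-- the configuration space of the theorem -/
abbrev B2 : Type := rose.B Set.univ 2

/-- ordered configurations -/
abbrev F2 : Type := rose.F Set.univ 2

/-- the map to the torus, for ordered configurations -/
noncomputable def phiF (x : F2) : Fin 3 → Crc := ∑ i, rho (x.1 i)

theorem phiF_perm (x y : F2) (h : rose.Perm Set.univ 2 x y) : phiF x = phiF y := by
  obtain ⟨σ, hσ⟩ := h
  unfold phiF
  rw [← Equiv.sum_comp σ (fun i => rho (x.1 i))]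
  exact Finset.sum_congr rfl fun i _ => by rw [hσ]

/-- the map to the torus -/
noncomputable def phi : B2 → (Fin 3 → Crc) := Quot.lift phiF phiF_perm

theorem continuous_phi : Continuous phi := by
  refine continuous_quot_lift phiF_perm ?_
  unfold phiF
  refine continuous_finsetSum _ fun i _ => continuous_rho.comp ?_
  exact (continuous_apply i).comp continuous_subtype_val

theorem phi_skeleton (b : B2) : ∃ i, phi b i = 0 := by
  obtain ⟨x, rfl⟩ := Quot.exists_rep b
  obtain ⟨e, he⟩ := exists_petal (x.1 0)
  obtain ⟨e', he'⟩ := exists_petal (x.1 1)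
  obtain ⟨i, hi, hi'⟩ : ∃ i : Fin 3, i ≠ e ∧ i ≠ e' := by
    revert e e'
    intro e _ e' _
    fin_cases e <;> fin_cases e' <;> decide
  refine ⟨i, ?_⟩
  change phiF x i = 0
  unfold phiF
  rw [Fin.sum_univ_two, Pi.add_apply, he i hi, he' i hi', add_zero]

/-- points of the cube `[0,1]³` -/
abbrev Cube3 : Type := Fin 3 → unitInterval

theorem succ_ne (i : Fin 3) : i + 1 ≠ i + 2 := by fin_cases i <;> decide

/-- the two points on the petals different from `i` -/
def cfg (i : Fin 3) (α : Cube3) : F2 :=
  ⟨![pr (i + 1) (α (i + 1)), pr (i + 2) (α (i + 2))], by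
    intro a b hab h
    refine ⟨(), Set.mem_univ _, ?_⟩
    fin_cases a <;> fin_cases b
    · exact absurd rfl hab
    · exact pt_eq (succ_ne i) h
    · exact pt_eq (succ_ne i).symm h
    · exact absurd rfl hab⟩

theorem continuous_pt (e : Fin 3) : Continuous (pr e) := by
  have h : Continuous fun t : unitInterval =>
      (Sum.inr (⟨e, t⟩ : Σ _ : rose.E, unitInterval) : rose.Pre) :=
    continuous_inr.comp continuous_sigmaMk
  exact continuous_quot_mk.comp h

theorem continuous_cfg (i : Fin 3) : Continuous (cfg i) := by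
  refine Continuous.subtype_mk ?_ _
  refine continuous_pi fun a => ?_
  fin_cases a
  · exact (continuous_pt _).comp (continuous_apply _)
  · exact (continuous_pt _).comp (continuous_apply _)

/-- the unordered pair -/
def face (i : Fin 3) (α : Cube3) : B2 := Quot.mk _ (cfg i α)

theorem continuous_face (i : Fin 3) : Continuous (face i) :=
  continuous_quot_mk.comp (continuous_cfg i)

theorem face_succ {i : Fin 3} {α : Cube3} (hi : α i = 0 ∨ α i = 1)
    (hj : α (i + 1) = 0 ∨ α (i + 1) = 1) : face i α = face (i + 1) α := by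
  apply Quot.sound
  refine ⟨Equiv.swap 0 1, fun a => ?_⟩
  have e2 : i + 1 + 1 = i + 2 := by fin_cases i <;> rfl
  have e3 : i + 1 + 2 = i := by fin_cases i <;> rfl
  fin_cases a
  · change pr (i + 1 + 1) (α (i + 1 + 1)) = (cfg i α).1 (Equiv.swap 0 1 0)
    rw [Equiv.swap_apply_left, e2]
    rfl
  · change pr (i + 1 + 2) (α (i + 1 + 2)) = (cfg i α).1 (Equiv.swap 0 1 1)
    rw [Equiv.swap_apply_right, e3, pt_eq_vert hi]
    exact (pt_eq_vert hj).symm

theorem face_eq {i j : Fin 3} {α : Cube3} (hi : α i = 0 ∨ α i = 1) (hj : α j = 0 ∨ α j = 1) :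
    face i α = face j α := by
  have : j = i ∨ j = i + 1 ∨ i = j + 1 := by
    revert i j
    intro i j _ _
    fin_cases i <;> fin_cases j <;> decide
  rcases this with rfl | rfl | rfl
  · rfl
  · exact face_succ hi hj
  · exact (face_succ hj hi).symm

/-- the boundary of the cube `[0,1]³` -/
abbrev BdCube : Type := {α : Cube3 // ∃ i, α i = 0 ∨ α i = 1}

/-- the boundary of the cube in the configuration space -/
noncomputable def bd (α : BdCube) : B2 := face α.2.choose α.1

theorem bd_eq (α : BdCube) {i : Fin 3} (hi : α.1 i = 0 ∨ α.1 i = 1) : bd α = face i α.1 :=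
  face_eq α.2.choose_spec hi

theorem continuous_bd : Continuous bd := by
  refine (locallyFinite_of_finite fun i : Fin 3 =>
    {α : BdCube | α.1 i = 0 ∨ α.1 i = 1}).continuous ?_ (fun i => ?_) (fun i => ?_)
  · ext α
    simp only [Set.mem_iUnion, Set.mem_univ, iff_true]
    exact α.2
  · have h : Continuous fun α : BdCube => α.1 i :=
      (continuous_apply i).comp continuous_subtype_val
    exact (isClosed_eq h continuous_const).union (isClosed_eq h continuous_const)
  · refine ContinuousOn.congr (f := fun α : BdCube => face i α.1) ?_ fun α hα => bd_eq α hα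
    exact ((continuous_face i).comp continuous_subtype_val).continuousOn

theorem phi_face {i : Fin 3} {α : Cube3} (hi : α i = 0 ∨ α i = 1) :
    phi (face i α) = fun j => ((α j : ℝ) : Crc) := by
  change phiF (cfg i α) = _
  unfold phiF
  rw [Fin.sum_univ_two]
  change rho (pr (i + 1) (α (i + 1))) + rho (pr (i + 2) (α (i + 2))) = _
  rw [rho_pt, rho_pt]
  have hz : ((α i : ℝ) : Crc) = 0 := by
    rcases hi with h | h
    · rw [h]; simp
    · rw [h]; exact AddCircle.coe_period 1
  funext j
  rw [Pi.add_apply]
  have : j = i ∨ j = i + 1 ∨ j = i + 2 := by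
    revert i j
    intro i _ _ j
    fin_cases i <;> fin_cases j <;> decide
  have n1 : i ≠ i + 1 := by fin_cases i <;> decide
  have n2 : i ≠ i + 2 := by fin_cases i <;> decide
  rcases this with rfl | rfl | rfl
  · rw [Pi.single_eq_of_ne n1, Pi.single_eq_of_ne n2, hz, add_zero]
  · rw [Pi.single_eq_same, Pi.single_eq_of_ne (succ_ne i), add_zero]
  · rw [Pi.single_eq_same, Pi.single_eq_of_ne (succ_ne i).symm, zero_add]

theorem phi_bd (α : BdCube) : phi (bd α) = fun j => ((α.1 j : ℝ) : Crc) := by
  rw [bd_eq α α.2.choose_spec]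
  exact phi_face α.2.choose_spec

end Pool.Agent.Q171.GS
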